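import Pool.Agent.W619.Y.Stm2
import Pool.Agent.W110.PG.DET

/-! Determinants of matrices some of whose rows are permuted by an automorphism in the inertia
group (helper168, for helper619; adapted from the proof of S_DET by helper110). -/

set_option autoImplicit false
set_option linter.overlappingInstances false
set_option linter.unusedSectionVars false

universe u v

open FF IntermediateField Pool.Agent.W619.PQ Pool.Agent.W619.PL Pool.Agent.W619.TW
  Pool.Agent.W603.LV

namespace Pool.Agent.W168.PG.DET2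

open Pool.Agent.W110.PG.DET (E Pm Pm_mul Pm_pow Pm_one mul_E sum_E det_Phi)

theorem main : Pool.Agent.W619.Y.S_DET2.{u, v} := by
  classical
  intro k L _ _ _ _ _ d n e w h ζ τ M₀ he hζ hord hτ hM₀ hGe₀ hdet
  have : CharZero L := charZero_of_injective_algebraMap (algebraMap k L).injective
  have hZ : IsPrimitiveRoot (algebraMap k L ζ) e :=
    hζ.map_of_injective (algebraMap k L).injective
  set Z := algebraMap k L ζ with hZdef
  obtain ⟨π, hπ0, hπ⟩ := w.surj
  let M : Matrix (Fin n) (Fin (d + n)) L := Matrix.of fun i j => M₀ (Fin.natAdd d i) j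
  have hM : ∀ i j, h (M i j) = M (τ i) j := hM₀
  have hGe : ∀ i j, Ge w 0 (M i j) := fun i j => hGe₀ _ _
  have hPe : (Pm τ : Matrix (Fin n) (Fin n) L) ^ e = 1 := by
    rw [Pm_pow, hτ, Pm_one]
  -- the entries of the projections are constants
  have hEc : ∀ (a : ℕ) (i j : Fin n), ∃ c : k, E Z e (Pm τ) a i j = algebraMap k L c := by
    intro a i j
    refine ⟨(e : k)⁻¹ * ∑ r ∈ Finset.range e, (ζ⁻¹) ^ (a * r) *
      (if (τ ^ r) i = j then 1 else 0), ?_⟩
    unfold E
    rw [Matrix.smul_apply, Matrix.sum_apply, map_mul, map_sum, map_inv₀, map_natCast, smul_eq_mul]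
    congr 1
    refine Finset.sum_congr rfl fun r _ => ?_
    rw [Matrix.smul_apply, Pm_pow, smul_eq_mul, map_mul, map_pow, map_inv₀]
    congr 1
    simp only [Pm, Matrix.of_apply]
    split_ifs <;> simp
  -- the entries of `E a * M`
  have hY0 : ∀ (a : ℕ) (i : Fin n) (j : Fin (d + n)), Ge w 0 ((E Z e (Pm τ) a * M) i j) := by
    intro a i j
    rw [Matrix.mul_apply]
    refine Ge.sum _ _ fun l _ => ?_
    obtain ⟨c, hc⟩ := hEc a i l
    rw [hc]
    simpa using (Ge.const (P := w) c).mul (hGe l j)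
  have hYh : ∀ (a : ℕ) (i : Fin n) (j : Fin (d + n)), h ((E Z e (Pm τ) a * M) i j) =
      algebraMap k L (ζ ^ a) * (E Z e (Pm τ) a * M) i j := by
    intro a i j
    have h1 : h ((E Z e (Pm τ) a * M) i j) =
        (E Z e (Pm τ) a * ((Pm τ : Matrix (Fin n) (Fin n) L) * M)) i j := by
      rw [Matrix.mul_apply, Matrix.mul_apply, map_sum]
      refine Finset.sum_congr rfl fun l _ => ?_
      obtain ⟨c, hc⟩ := hEc a i l
      rw [map_mul, hc, AlgEquiv.commutes, hM, Pm_mul]
    have h2 : E Z e (Pm τ) a * Pm τ = Pm τ * E Z e (Pm τ) a := by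
      unfold E
      rw [Matrix.smul_mul, Matrix.mul_smul, Matrix.sum_mul, Matrix.mul_sum]
      congr 1
      refine Finset.sum_congr rfl fun r _ => ?_
      rw [Matrix.smul_mul, Matrix.mul_smul, ← pow_succ, ← pow_succ']
    rw [h1, ← Matrix.mul_assoc, h2, mul_E hZ he hPe a, Matrix.smul_mul, Matrix.smul_apply,
      smul_eq_mul, map_pow]
  have hYa : ∀ a : ℕ, a < e → ∀ (i : Fin n) (j : Fin (d + n)),
      Ge w a ((E Z e (Pm τ) a * M) i j) := by
    intro a ha i j
    by_cases hz : (E Z e (Pm τ) a * M) i j = 0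
    · exact Or.inl hz
    right
    obtain ⟨q, hq⟩ := hord a _ hz (hYh a i j)
    have h0 := (hY0 a i j).resolve_left hz
    by_contra hcon
    push Not at hcon
    have hq1 : 0 ≤ q := by
      by_contra hcon2
      push Not at hcon2
      have h3 : (e : ℤ) * q ≤ (e : ℤ) * (-1) := mul_le_mul_of_nonneg_left (by omega) (by omega)
      omega
    have : 0 ≤ (e : ℤ) * q := by positivity
    omega
  -- the scaling matrix
  let Φ : Matrix (Fin n) (Fin n) L := ∑ a ∈ Finset.range e, (π⁻¹) ^ a • E Z e (Pm τ) a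
  have hΦ := det_Phi hZ he τ hτ (inv_ne_zero hπ0)
  have hΦM : ∀ i j, Ge w 0 ((Φ * M) i j) := by
    intro i j
    have h1 : (Φ * M) i j = ∑ a ∈ Finset.range e, (π⁻¹) ^ a * (E Z e (Pm τ) a * M) i j := by
      simp only [Φ]
      rw [Matrix.sum_mul, Matrix.sum_apply]
      refine Finset.sum_congr rfl fun a _ => ?_
      rw [Matrix.smul_mul, Matrix.smul_apply, smul_eq_mul]
    rw [h1]
    refine Ge.sum _ _ fun a ha => ?_
    rw [Finset.mem_range] at ha
    have h2 : Ge w (-(a : ℤ)) ((π⁻¹) ^ a) := by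
      right
      rw [w.ord_pow, w.ord_inv, hπ]
      simp
    simpa using h2.mul (hYa a ha i j)
  -- the full matrix
  let M' : Matrix (Fin d ⊕ Fin n) (Fin d ⊕ Fin n) L := M₀.submatrix finSumFinEquiv finSumFinEquiv
  have hM'det : M'.det = M₀.det := Matrix.det_submatrix_equiv_self _ _
  let Ψ : Matrix (Fin d ⊕ Fin n) (Fin d ⊕ Fin n) L :=
    Matrix.fromBlocks (1 : Matrix (Fin d) (Fin d) L) 0 0 Φ
  have hΨdet : Ψ.det = Φ.det := by
    simp only [Ψ]
    rw [Matrix.det_fromBlocks_zero₂₁, Matrix.det_one, one_mul]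
  have hΨM : ∀ i j, Ge w 0 ((Ψ * M') i j) := by
    intro i j
    rcases i with i | i
    · have h1 : (Ψ * M') (Sum.inl i) j = M' (Sum.inl i) j := by
        rw [Matrix.mul_apply, Fintype.sum_sum_type]
        simp [Ψ, Matrix.one_apply]
      rw [h1]
      exact hGe₀ _ _
    · have h1 : (Ψ * M') (Sum.inr i) j = (Φ * M) i (finSumFinEquiv j) := by
        rw [Matrix.mul_apply, Matrix.mul_apply, Fintype.sum_sum_type]
        simp [Ψ, M', M]
      rw [h1]
      exact hΦM _ _
  have h3 := ge_det w (Ψ * M') hΨM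
  rw [Matrix.det_mul, hΨdet, hM'det] at h3
  change Φ.det ^ 2 = _ at hΦ
  have hp0 : (π⁻¹) ^ e ≠ 0 := pow_ne_zero _ (inv_ne_zero hπ0)
  have hΦ0 : Φ.det ≠ 0 := by
    intro h0
    rw [h0] at hΦ
    have : (0 : L) ≠ (0 : L) ^ 2 := by
      rw [hΦ]
      exact (mul_ne_zero (pow_ne_zero _ hp0) (pow_ne_zero _ (inv_ne_zero hp0))).symm
    simp at this
  have h4 : w.ord (Φ.det ^ 2) = 2 * w.ord Φ.det := by
    rw [w.ord_pow]; norm_num
  have h5 : w.ord ((((π⁻¹) ^ e) ^ n * (((π⁻¹) ^ e)⁻¹) ^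
      ({i : Fin n | ∀ r : ℕ, i ≤ (τ ^ r) i}.ncard) : L)) =
      -((e : ℤ) * (n - ({i : Fin n | ∀ r : ℕ, i ≤ (τ ^ r) i}.ncard : ℤ))) := by
    have hpe : w.ord ((π⁻¹) ^ e) = -(e : ℤ) := by
      rw [w.ord_pow, w.ord_inv, hπ]
      ring
    rw [w.ord_mul (pow_ne_zero _ hp0) (pow_ne_zero _ (inv_ne_zero hp0)),
      w.ord_pow ((π⁻¹) ^ e) n, w.ord_pow (((π⁻¹) ^ e)⁻¹), w.ord_inv, hpe]
    ring
  rw [← hΦ, h4] at h5
  have h6 := h3.resolve_left (mul_ne_zero hΦ0 hdet)
  rw [w.ord_mul hΦ0 hdet] at h6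
  linarith

end Pool.Agent.W168.PG.DET2
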